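import Pool.Agent.Helper34.LU.Df

/-!
PROJECT LT2, block Z: the embedding of `V` as a linear map.
-/

set_option autoImplicit false

namespace Pool.Agent.Helper59.LU

open Finset
open Pool.Agent.Helper34.LT LTG
open Pool.Agent.Helper34.LU

/-- the embedding of `V` with slopes `X`, as a linear map; its range is the subspace `W_X` -/
noncomputable def wvl {q : ℕ} {s t : Finset ℕ} (hs : HS q s) (ht : HS q t) (X : II s t → ℂ) :
    (UU q → ℂ) →ₗ[ℂ] (II s t → ℂ) where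
  toFun x := wv hs ht X x
  map_add' x y := by
    funext i
    simp only [wv, Pi.add_apply]
    ring
  map_smul' c x := by
    funext i
    simp only [wv, Pi.smul_apply, smul_eq_mul, RingHom.id_apply]
    ring

theorem wvl_apply {q : ℕ} {s t : Finset ℕ} (hs : HS q s) (ht : HS q t) (X : II s t → ℂ)
    (x : UU q → ℂ) : wvl hs ht X x = wv hs ht X x := rfl

theorem sgm_gm (q : ℕ) {s t : Finset ℕ} {ρ1 ρ2 : ℕ → ℂ} (κ1 : s → ℂ) (κ2 : t → ℂ)
    (h1 : ∀ u ∈ s, ρ1 u ≠ 0) (h2 : ∀ v ∈ t, ρ2 v ≠ 0) (a : Polynomial ℤ × Polynomial ℤ) :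
    sgm ρ1 ρ2 κ1 κ2 (gm q s t ρ1 ρ2 a) =
      Sum.elim (fun u => κ1 u * (starRingEnd ℂ) (pt q s a.1 u))
        (fun v => κ2 v * (starRingEnd ℂ) (pt q t a.2 v)) := by
  funext i
  rcases i with u | v
  · change κ1 u * (starRingEnd ℂ) (ρ1 u * pt q s a.1 u / ρ1 u) = _
    rw [mul_div_cancel_left₀ _ (h1 u u.2)]
    rfl
  · change κ2 v * (starRingEnd ℂ) (ρ2 v * pt q t a.2 v / ρ2 v) = _
    rw [mul_div_cancel_left₀ _ (h2 v v.2)]
    rfl

end Pool.Agent.Helper59.LU
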