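import Pool.Agent.Helper59.LT.PolB

/-!
PROJECT LT2, part A2': polynomials for `e` copies.
-/

set_option autoImplicit false

namespace Pool.Agent.Helper59.LU

open Finset
open Pool.Agent.Helper34.LT Pool.Agent.Helper13.LT Pool.Agent.Helper59.LT

section hs

variable {A : Type}

theorem hasSum_pair {A B : Type} (F : A → ℂ) (G : B → ℂ) (a b : ℂ) (hF : HasSum F a)
    (hG : HasSum G b) : HasSum (fun x : A × B => F x.1 * G x.2) (a * b) := by
  have h1 : Summable (fun x => ‖F x‖) := hF.summable.norm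
  have h2 : Summable (fun x => ‖G x‖) := hG.summable.norm
  exact hF.mul hG (summable_mul_of_summable_norm (f := F) (g := G) h1 h2)

/-- products of convergent sums -/
theorem hasSum_pi : ∀ {e : ℕ} (f : Fin e → A → ℂ) (s : Fin e → ℂ),
    (∀ j, HasSum (f j) (s j)) → HasSum (fun p : Fin e → A => ∏ j, f j (p j)) (∏ j, s j) := by
  intro e
  induction e with
  | zero =>
    intro f s _
    have h1 : (fun p : Fin 0 → A => ∏ j, f j (p j)) = fun _ => (1 : ℂ) := by
      funext p
      exact Finset.prod_of_isEmpty _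
    rw [h1, Finset.prod_of_isEmpty]
    exact hasSum_unique (fun _ : Fin 0 → A => (1 : ℂ))
  | succ e ih =>
    intro f s h
    have h1 := ih (fun j => f j.succ) (fun j => s j.succ) (fun j => h j.succ)
    have h0 := h 0
    have h3 := hasSum_pair (f 0) (fun p : Fin e → A => ∏ j, f j.succ (p j)) _ _ h0 h1
    have h4 : (fun p : Fin (e + 1) → A => ∏ j, f j (p j)) ∘ (Fin.consEquiv fun _ => A) =
        fun x : A × (Fin e → A) => f 0 x.1 * ∏ j, f j.succ (x.2 j) := by
      funext x
      rw [Function.comp_apply, Fin.prod_univ_succ]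
      rfl
    have h5 : HasSum ((fun p : Fin (e + 1) → A => ∏ j, f j (p j)) ∘ (Fin.consEquiv fun _ => A))
        (s 0 * ∏ j, s (Fin.succ j)) := by
      rw [h4]
      exact h3
    rw [Fin.prod_univ_succ]
    exact (Fin.consEquiv fun _ : Fin (e + 1) => A).hasSum_iff.1 h5

end hs

section

variable {I K J : Type} [Fintype I] [Fintype K] [Fintype J]

theorem PS_sum {c : J → (I → ℕ) → ℂ} {f : J → (I → ℂ) → ℂ} (h : ∀ j, PS (c j) (f j)) (b : J → ℂ) :
    PS (fun m => ∑ j, b j * c j m) (fun z => ∑ j, b j * f j z) := by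
  intro z
  have h1 : HasSum (fun m : I → ℕ => ∑ j, b j * (c j m * ∏ u, z u ^ m u)) (∑ j, b j * f j z) :=
    hasSum_sum fun j _ => (h j z).mul_left (b j)
  convert h1 using 1
  funext m
  rw [Finset.sum_mul]
  exact Finset.sum_congr rfl fun j _ => by ring

/-- products in disjoint groups of variables -/
theorem PS_prod {e : ℕ} {c : Fin e → (K → ℕ) → ℂ} {f : Fin e → (K → ℂ) → ℂ}
    (h : ∀ j, PS (c j) (f j)) :
    PS (fun p : Fin e × K → ℕ => ∏ j, c j (fun u => p (j, u)))
      (fun z : Fin e × K → ℂ => ∏ j, f j (fun u => z (j, u))) := by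
  intro z
  have h1 := hasSum_pi (fun j (m : K → ℕ) => c j m * ∏ u, z (j, u) ^ m u)
    (fun j => f j (fun u => z (j, u))) (fun j => h j _)
  rw [← (Equiv.curry (Fin e) K ℕ).symm.hasSum_iff]
  convert h1 using 1
  funext p
  simp only [Function.comp_apply, Equiv.curry_symm_apply]
  rw [Fintype.prod_prod_type, Finset.prod_mul_distrib]
  rfl

/-- the function of `e` copies -/
noncomputable def Fe {e : ℕ} (π : I → K) (Φ : J → (I → ℂ) → ℂ) (c : (Fin e → J) → ℂ) (X : I → ℂ)
    (z : Fin e × K → ℂ) : ℂ :=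
  ∑ a, c a * ∏ j, Φ (a j) (fun i => X i * z (j, π i))

/-- tensor powers of an injective jet map -/
theorem tensor {B : Type} [Fintype B] {e : ℕ} (a : J → B → ℂ)
    (h : ∀ b : J → ℂ, (∀ p, ∑ j, b j * a j p = 0) → b = 0) (c : (Fin e → J) → ℂ)
    (hc : ∀ p : Fin e → B, ∑ x, c x * ∏ j, a (x j) (p j) = 0) : c = 0 := by
  classical
  let A : (J → ℂ) →ₗ[ℂ] (B → ℂ) :=
    { toFun := fun b p => ∑ j, b j * a j p
      map_add' := fun b b' => by
        funext p
        simp only [Pi.add_apply, add_mul, Finset.sum_add_distrib]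
      map_smul' := fun r b => by
        funext p
        simp only [Pi.smul_apply, smul_eq_mul, RingHom.id_apply, Finset.mul_sum, mul_assoc] }
  have hA : Function.Injective A := by
    rw [← LinearMap.ker_eq_bot, LinearMap.ker_eq_bot']
    intro b hb
    exact h b fun p => congrFun hb p
  obtain ⟨g, hg⟩ := LinearMap.exists_leftInverse_of_injective A (LinearMap.ker_eq_bot.2 hA)
  let β : J → B → ℂ := fun j p => g (Pi.single p 1) j
  have hβ : ∀ j j' : J, ∑ p, β j' p * a j p = if j = j' then 1 else 0 := by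
    intro j j'
    have h1 : A (Pi.single j 1) = fun p => a j p := by
      funext p
      change ∑ i, (Pi.single j (1 : ℂ) : J → ℂ) i * a i p = a j p
      rw [Finset.sum_eq_single j]
      · rw [Pi.single_eq_same, one_mul]
      · intro i _ hi
        rw [Pi.single_eq_of_ne hi, zero_mul]
      · intro hj
        exact absurd (Finset.mem_univ j) hj
    have h2 : g (fun p => a j p) = Pi.single j 1 := by
      rw [← h1, ← LinearMap.comp_apply, hg, LinearMap.id_apply]
    have h3 : (fun p => a j p) = ∑ p, a j p • (Pi.single p (1 : ℂ) : B → ℂ) := by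
      funext q
      rw [Finset.sum_apply]
      simp only [Pi.smul_apply, smul_eq_mul]
      rw [Finset.sum_eq_single q]
      · rw [Pi.single_eq_same, mul_one]
      · intro p _ hp
        rw [Pi.single_eq_of_ne hp.symm, mul_zero]
      · intro hq
        exact absurd (Finset.mem_univ q) hq
    rw [h3, map_sum] at h2
    have h4 := congrFun h2 j'
    rw [Finset.sum_apply] at h4
    simp only [map_smul, Pi.smul_apply, smul_eq_mul] at h4
    rw [Pi.single_apply] at h4
    calc ∑ p, β j' p * a j p = ∑ p, a j p * g (Pi.single p 1) j' :=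
          Finset.sum_congr rfl fun p _ => mul_comm _ _
      _ = if j' = j then 1 else 0 := h4
      _ = if j = j' then 1 else 0 := by simp only [eq_comm]
  funext y
  have h5 : ∑ p : Fin e → B, (∏ j, β (y j) (p j)) * ∑ x, c x * ∏ j, a (x j) (p j) = c y := by
    calc ∑ p : Fin e → B, (∏ j, β (y j) (p j)) * ∑ x, c x * ∏ j, a (x j) (p j)
        = ∑ x, c x * ∑ p : Fin e → B, ∏ j, (β (y j) (p j) * a (x j) (p j)) := by
          simp_rw [Finset.mul_sum]
          rw [Finset.sum_comm]
          refine Finset.sum_congr rfl fun x _ => Finset.sum_congr rfl fun p _ => ?_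
          rw [Finset.prod_mul_distrib]
          ring
      _ = ∑ x, c x * ∏ j, ∑ q : B, (β (y j) q * a (x j) q) := by
          refine Finset.sum_congr rfl fun x _ => ?_
          rw [Finset.prod_univ_sum]
          simp only [Fintype.piFinset_univ]
      _ = ∑ x, c x * ∏ j, (if x j = y j then (1 : ℂ) else 0) := by
          refine Finset.sum_congr rfl fun x _ => ?_
          congr 1
          exact Finset.prod_congr rfl fun j _ => hβ (x j) (y j)
      _ = c y := by
          rw [Finset.sum_eq_single y]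
          · simp
          · intro x _ hx
            obtain ⟨j, hj⟩ := Function.ne_iff.1 hx
            rw [Finset.prod_eq_zero (Finset.mem_univ j), mul_zero]
            rw [if_neg hj]
          · intro hy
            exact absurd (Finset.mem_univ y) hy
  rw [← h5]
  simp only [hc, mul_zero, Finset.sum_const_zero, Pi.zero_apply]

end

section

variable {I K J : Type} [Fintype I] [Fintype K] [Fintype J]

theorem card_supp {d : ℕ} (P : MvPolynomial I ℤ) (h : P.totalDegree ≤ d) :
    P.support.card ≤ (d + 1) ^ Fintype.card I := by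
  classical
  have h1 : (P.support.image fun m : I →₀ ℕ => (m : I → ℕ)) ⊆
      Fintype.piFinset fun _ : I => range (d + 1) := by
    intro m hm
    obtain ⟨n, hn, rfl⟩ := Finset.mem_image.1 hm
    rw [Fintype.mem_piFinset]
    intro i
    rw [Finset.mem_range]
    have h2 : n i ≤ n.sum fun _ e => e := by
      rw [Finsupp.sum_fintype _ _ (fun _ => rfl)]
      exact Finset.single_le_sum (f := fun i => n i) (fun _ _ => Nat.zero_le _) (Finset.mem_univ i)
    have h3 := MvPolynomial.le_totalDegree hn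
    omega
  have h2 := Finset.card_le_card h1
  rw [Finset.card_image_of_injective _ DFunLike.coe_injective, Fintype.card_piFinset] at h2
  simpa using h2

theorem coeff_ren {I' : Type} (f : I → I') (P : MvPolynomial I ℤ) {d : ℕ}
    (hd : P.totalDegree ≤ d) {M : ℝ} (hM0 : 0 ≤ M) (hM : ∀ m, |((P.coeff m : ℤ) : ℝ)| ≤ M)
    (n : I' →₀ ℕ) :
    |(((MvPolynomial.rename f P).coeff n : ℤ) : ℝ)| ≤ ((d + 1 : ℕ) : ℝ) ^ Fintype.card I * M := by
  classical
  have h1 : MvPolynomial.rename f P =
      ∑ m ∈ P.support, MvPolynomial.monomial (Finsupp.mapDomain f m) (P.coeff m) := by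
    conv_lhs => rw [← MvPolynomial.support_sum_monomial_coeff P]
    rw [map_sum]
    exact Finset.sum_congr rfl fun m _ => MvPolynomial.rename_monomial _ _ _
  rw [h1, MvPolynomial.coeff_sum, Int.cast_sum]
  refine (Finset.abs_sum_le_sum_abs _ _).trans ?_
  have h2 : ∀ m ∈ P.support, |(((MvPolynomial.monomial (Finsupp.mapDomain f m) (P.coeff m)).coeff n :
      ℤ) : ℝ)| ≤ M := by
    intro m _
    rw [MvPolynomial.coeff_monomial]
    split_ifs
    · exact hM m
    · simpa using hM0
  refine (Finset.sum_le_sum h2).trans ?_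
  rw [Finset.sum_const, nsmul_eq_mul]
  refine mul_le_mul_of_nonneg_right ?_ hM0
  have h3 := card_supp P hd
  exact_mod_cast h3

/-- the function of `e` copies before the slopes -/
noncomputable def G0 {e : ℕ} (Φ : J → (I → ℂ) → ℂ) (c : (Fin e → J) → ℤ)
    (y : Fin e × I → ℂ) : ℂ := ∑ a, (c a : ℂ) * ∏ j, Φ (a j) (fun i => y (j, i))

theorem RT_G0 {e D k : ℕ} (hD : 1 ≤ D) {Φ : J → (I → ℂ) → ℂ} (hΦ : ∀ j, RT D k (Φ j))
    (c : (Fin e → J) → ℤ) : RT D (e * k) (G0 Φ c) := by
  unfold G0
  refine RT.sum univ hD fun a _ => RT.zsmul hD ?_ (c a)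
  have h1 := RT_prod (I := Fin e × I) (univ : Finset (Fin e)) hD (k := fun _ => k)
    (f := fun j y => Φ (a j) (fun i => y (j, i))) (fun j _ =>
      RT_emb (hΦ (a j)) (fun i => (j, i)) (fun i i' h => (Prod.mk.inj h).2))
  rw [Finset.sum_const, Finset.card_univ, Fintype.card_fin, smul_eq_mul] at h1
  exact h1

theorem copies_poly {e : ℕ} (π : I → K) {D k : ℕ} (hD : 1 ≤ D) {Φ : J → (I → ℂ) → ℂ}
    (hΦ : ∀ j, RT D k (Φ j)) {M B : ℝ} (hM0 : 0 ≤ M) (hB0 : 0 ≤ B)
    (hM : ∀ j z, ‖z‖ ≤ 1 → ‖Φ j z‖ ≤ M)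
    (c : (Fin e → J) → ℤ) (hB : ∀ a, |(c a : ℝ)| ≤ B) :
    ∃ P : (Fin e × K → ℕ) → MvPolynomial I ℤ,
      (∀ p, (P p).totalDegree ≤ ∑ u, p u) ∧
      (∀ p n, |(((P p).coeff n : ℤ) : ℝ)| ≤ ((∑ u, p u + 1 : ℕ) : ℝ) ^ (e * Fintype.card I) *
        ((((Fintype.card J : ℝ) ^ e) * (B * M ^ e)) *
          ((D : ℝ) ^ (∑ u, p u + e * k) * ∏ u, ((p u).factorial : ℝ)))) ∧
      (∀ (X : I → ℂ) (ε : ℝ), (∀ x : Fin e → K → ℂ, (∀ i, ‖x i‖ ≤ 1) →
          ‖∑ a, (c a : ℂ) * ∏ i, Φ (a i) (fun u => X u * x i (π u))‖ ≤ ε) →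
        ∀ p, ‖MvPolynomial.aeval X (P p)‖ ≤
          ε * ((D : ℝ) ^ (∑ u, p u + e * k) * ∏ u, ((p u).factorial : ℝ))) ∧
      (∀ (X : I → ℂ) (T : ℕ), c ≠ 0 →
        (∀ p, (∀ u, p u ≤ T) → MvPolynomial.aeval X (P p) = 0) →
        ∃ b : J → ℂ, b ≠ 0 ∧ ∀ x : K → ℂ, ∀ j ≤ T,
          iteratedDeriv j (fun z : ℂ => ∑ a, b a * Φ a (fun u => X u * (z • x) (π u))) 0 = 0) := by
  classical
  obtain ⟨P0, p1, p2, p3⟩ := poly_abs (Prod.map id π : Fin e × I → Fin e × K) hD (RT_G0 hD hΦ c)
  have hDr : (0 : ℝ) < (D : ℝ) := by exact_mod_cast hD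
  have hG : ∀ y : Fin e × I → ℂ, ‖y‖ ≤ 1 → ‖G0 Φ c y‖ ≤ (Fintype.card J : ℝ) ^ e * (B * M ^ e) := by
    intro y hy
    unfold G0
    refine (norm_sum_le _ _).trans ?_
    have h1 : ∀ a : Fin e → J, ‖(c a : ℂ) * ∏ j, Φ (a j) (fun i => y (j, i))‖ ≤ B * M ^ e := by
      intro a
      rw [norm_mul, Complex.norm_intCast, norm_prod]
      refine mul_le_mul (hB a) ?_ (Finset.prod_nonneg fun _ _ => norm_nonneg _) hB0
      calc ∏ j, ‖Φ (a j) (fun i => y (j, i))‖ ≤ ∏ _j : Fin e, M := by
            refine Finset.prod_le_prod (fun _ _ => norm_nonneg _) fun j _ => hM _ _ ?_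
            rw [pi_norm_le_iff_of_nonneg zero_le_one]
            exact fun i => (norm_le_pi_norm y _).trans hy
        _ = M ^ e := by rw [Finset.prod_const, Finset.card_univ, Fintype.card_fin]
    refine (Finset.sum_le_sum fun a _ => h1 a).trans ?_
    rw [Finset.sum_const, Finset.card_univ, nsmul_eq_mul, Fintype.card_fun, Fintype.card_fin]
    push_cast
    exact le_rfl
  have hps : ∀ X : I → ℂ, PS (fun p : Fin e × K → ℕ => MvPolynomial.aeval X
      (MvPolynomial.rename Prod.snd (P0 p)) / ((D : ℂ) ^ (∑ u, p u + e * k) *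
        ∏ u, ((p u).factorial : ℂ)))
      (fun z => ∑ a, (c a : ℂ) * ∏ j, Φ (a j) (fun i => X i * z (j, π i))) := by
    intro X
    have h1 := p3 (fun x => X x.2)
    convert h1 using 2 with p
    · rw [MvPolynomial.aeval_rename]
      rfl
    · rfl
  refine ⟨fun p => MvPolynomial.rename Prod.snd (P0 p), fun p => ?_, fun p n => ?_,
    fun X ε hX p => ?_, fun X T hc hz => ?_⟩
  · exact (MvPolynomial.totalDegree_rename_le _ _).trans (p1 p)
  · have h1 := coeff_ren (Prod.snd : Fin e × I → I) (P0 p) (p1 p) (M := _)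
      (by positivity) (p2 _ hG p) n
    rw [Fintype.card_prod, Fintype.card_fin] at h1
    exact h1
  · have h1 := PS.bound (hps X) (R := 1) (B := ε) zero_le_one (fun z hz => by
      refine hX (fun i u => z (i, u)) fun i => ?_
      rw [pi_norm_le_iff_of_nonneg zero_le_one]
      exact fun u => (norm_le_pi_norm z _).trans hz) p
    rw [one_pow, mul_one, norm_div, norm_mul, norm_pow, Complex.norm_natCast, norm_prod] at h1
    simp only [Complex.norm_natCast] at h1
    have hpos : (0 : ℝ) < (D : ℝ) ^ (∑ u, p u + e * k) * ∏ u, ((p u).factorial : ℝ) := by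
      refine mul_pos (pow_pos hDr _) (Finset.prod_pos fun u _ => ?_)
      exact_mod_cast Nat.factorial_pos _
    rwa [div_le_iff₀ hpos] at h1
  · choose a ha _ using fun j => (RT_iff hD).1 (hΦ j)
    have h1 : ∀ j, PS (fun p : K → ℕ => ∑ n ∈ fib π p, a j n * ∏ i, X i ^ n i)
        (fun z => Φ j fun i => X i * z (π i)) := fun j => ps_fib π (ha j) X
    obtain ⟨A, hA⟩ : ∃ A : J → (K → ℕ) → ℂ, A = fun j p => ∑ n ∈ fib π p, a j n * ∏ i, X i ^ n i :=
      ⟨_, rfl⟩
    have h1' : ∀ j, PS (A j) (fun z => Φ j fun i => X i * z (π i)) := by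
      rw [hA]
      exact h1
    have h2 : PS (fun p : Fin e × K → ℕ => ∑ x : Fin e → J, (c x : ℂ) *
        ∏ j, A (x j) (fun u => p (j, u)))
        (fun z => ∑ x : Fin e → J, (c x : ℂ) * ∏ j, Φ (x j) (fun i => X i * z (j, π i))) :=
      PS_sum (fun x : Fin e → J => PS_prod fun j => h1' (x j)) (fun x => (c x : ℂ))
    have h3 := PS.unique (hps X) h2
    by_cases h4 : ∀ b : J → ℂ, (∀ p : K → Fin (T + 1), ∑ j, b j * A j (fun u => (p u : ℕ)) = 0) →
        b = 0
    · exfalso
      have h5 := tensor (e := e) (B := K → Fin (T + 1)) (fun j p => A j fun u => (p u : ℕ)) h4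
        (fun x => (c x : ℂ)) (fun p => by
          have h6 := congrFun h3 (fun x => (p x.1 x.2 : ℕ))
          simp only at h6
          rw [hz _ (fun u => by have := (p u.1 u.2).2; omega), zero_div] at h6
          exact h6.symm)
      apply hc
      funext x
      have h6 := congrFun h5 x
      simpa using h6
    · push Not at h4
      obtain ⟨b, hb, hb0⟩ := h4
      refine ⟨b, hb0, fun x j hj => ?_⟩
      have h5 : PS (fun p : K → ℕ => ∑ i, b i * A i p)
          (fun z => ∑ i, b i * Φ i fun u => X u * z (π u)) := PS_sum h1' b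
      refine line_zero h5 x j fun p hp => ?_
      have h6 : ∀ u, p u < T + 1 := by
        intro u
        have : p u ≤ ∑ u, p u := Finset.single_le_sum (f := p) (fun _ _ => Nat.zero_le _)
          (Finset.mem_univ u)
        omega
      exact hb (fun u => ⟨p u, h6 u⟩)

end

end Pool.Agent.Helper59.LU
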