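import Pool.Agent.Helper34.LU.Df
import Pool.Agent.Helper59.LT.PolC
import Pool.Agent.Helper59.LU.Cp

/-!
PROJECT LT2, block A: the polynomials (from the properties of the vector functions).
-/

set_option autoImplicit false

namespace Pool.Agent.Helper59.LU

open Finset
open Pool.Agent.Helper34.LT Pool.Agent.Helper13.LT Pool.Agent.Helper59.LT LTG
open Pool.Agent.Helper34.LU

theorem pow_exp (x : ℝ) (n : ℕ) : Real.exp x ^ n = Real.exp (n * x) := by
  rw [← Real.exp_nat_mul]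

theorem A_main_of (q : ℕ) (s t : Finset ℕ) (f : (s → ℂ) → ℂ) (g : (t → ℂ) → ℂ)
    (hs : HS q s) (ht : HS q t)
    (hrt : ∃ D : ℕ, 1 ≤ D ∧ ∀ (L : ℕ) (j : JJ s t L), RT D (q * L + 2) (Vx f g j))
    (hgr : ∃ C : ℝ, ∀ (L : ℕ) (j : JJ s t L) (x : II s t → ℂ),
      ‖Vx f g j x‖ ≤ Real.exp (C * (L * Real.log (L + 2) + ‖x‖ ^ 2 + 1)))
    (e : ℕ) :
    ∃ C : ℝ, 1 ≤ C ∧ ∀ L T : ℕ, 1 ≤ L → L ≤ T → ∀ c : (Fin e → JJ s t L) → ℤ, c ≠ 0 →
      (∀ k, |(c k : ℝ)| ≤ Real.exp (T * Real.log (T + 2))) →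
      ∃ (N : ℕ) (P : Fin N → MvPolynomial (II s t) ℤ),
        (N : ℝ) ≤ Real.exp (C * T) ∧ (∀ m, ((P m).totalDegree : ℝ) ≤ C * T) ∧
        (∀ m k, |(((P m).coeff k : ℤ) : ℝ)| ≤ Real.exp (C * T * Real.log (T + 2))) ∧
        (∀ (X : II s t → ℂ) (U : ℝ),
          (∀ x : Fin e → UU q → ℂ, (∀ i, ‖x i‖ ≤ 1) →
            ‖∑ k, (c k : ℂ) * ∏ i, Vx f g (k i) (wv hs ht X (x i))‖ ≤
              Real.exp (-U)) →
          ∀ m, ‖MvPolynomial.aeval X (P m)‖ ≤ Real.exp (C * T * Real.log (T + 2) - U)) ∧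
        (∀ X : II s t → ℂ, (∀ m, MvPolynomial.aeval X (P m) = 0) →
          ∃ b : JJ s t L → ℂ, b ≠ 0 ∧ ∀ x : UU q → ℂ, ∀ j ≤ T,
            iteratedDeriv j
              (fun z : ℂ => ∑ k, b k * Vx f g k (wv hs ht X (z • x))) 0 = 0) := by
  obtain ⟨D, hD, hRT⟩ := hrt
  obtain ⟨C0, hC0⟩ := hgr
  obtain ⟨m, hm⟩ : ∃ m : ℕ, m = Fintype.card (Fin e × UU q) := ⟨_, rfl⟩
  obtain ⟨i, hi⟩ : ∃ i : ℕ, i = Fintype.card (II s t) := ⟨_, rfl⟩
  obtain ⟨v, hv⟩ : ∃ v : ℕ, v = Fintype.card s + Fintype.card t := ⟨_, rfl⟩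
  obtain ⟨b, hb⟩ : ∃ b : ℝ, b = Real.log D * (m + (e * (q + 2) : ℕ)) + m := ⟨_, rfl⟩
  have hlD : 0 ≤ Real.log D := Real.log_nonneg (by exact_mod_cast hD)
  have hb0 : 0 ≤ b := by
    rw [hb]
    positivity
  obtain ⟨C, hC⟩ : ∃ C : ℝ, C = (e * i : ℕ) * m + (e * v : ℕ) + 1 + e * (3 * |C0|) + b + m :=
    ⟨_, rfl⟩
  have hCb : b + m + 1 ≤ C := by
    rw [hC]
    have h1 : (0 : ℝ) ≤ (e * i : ℕ) * m := by positivity
    have h2 : (0 : ℝ) ≤ (e * v : ℕ) := by positivity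
    have h3 : (0 : ℝ) ≤ e * (3 * |C0|) := by positivity
    linarith
  have hm0 : (0 : ℝ) ≤ m := Nat.cast_nonneg m
  refine ⟨C, by linarith, fun L T hL hLT c hc hcB => ?_⟩
  have hT : 1 ≤ T := hL.trans hLT
  have hTr : (1 : ℝ) ≤ (T : ℝ) := by exact_mod_cast hT
  have hLr : (1 : ℝ) ≤ (L : ℝ) := by exact_mod_cast hL
  have hLTr : (L : ℝ) ≤ (T : ℝ) := by exact_mod_cast hLT
  have hl := log_ge_one hT
  obtain ⟨w, hw⟩ : ∃ w : ℝ, w = T * Real.log (T + 2) := ⟨_, rfl⟩
  have hxT : (T : ℝ) ≤ w := by rw [hw]; nlinarith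
  have hLw : (L : ℝ) * Real.log (L + 2) ≤ w := by
    rw [hw]
    refine mul_le_mul hLTr (Real.log_le_log (by linarith) (by linarith))
      (Real.log_nonneg (by linarith)) (by linarith)
  have hM : ∀ (j : JJ s t L) (z : II s t → ℂ), ‖z‖ ≤ 1 → ‖Vx f g j z‖ ≤ Real.exp (3 * |C0| * w) := by
    intro j z hz
    refine (hC0 L j z).trans (Real.exp_le_exp.2 ?_)
    have h3 : ‖z‖ ^ 2 ≤ 1 := pow_le_one₀ (norm_nonneg _) hz
    have h4 : (L : ℝ) * Real.log (L + 2) + ‖z‖ ^ 2 + 1 ≤ 3 * w := by linarith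
    have h5 : 0 ≤ (L : ℝ) * Real.log (L + 2) + ‖z‖ ^ 2 + 1 := by
      have : 0 ≤ (L : ℝ) * Real.log (L + 2) :=
        mul_nonneg (by linarith) (Real.log_nonneg (by linarith))
      positivity
    calc C0 * (L * Real.log (L + 2) + ‖z‖ ^ 2 + 1)
        ≤ |C0| * (L * Real.log (L + 2) + ‖z‖ ^ 2 + 1) :=
          mul_le_mul_of_nonneg_right (le_abs_self C0) h5
      _ ≤ |C0| * (3 * w) := mul_le_mul_of_nonneg_left h4 (abs_nonneg _)
      _ = 3 * |C0| * w := by ring
  obtain ⟨P, p1, p2, p3, p4⟩ := copies_poly (e := e) (pj hs ht) hD (hRT L) (Real.exp_pos _).le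
    (Real.exp_pos _).le hM c hcB
  have hk : e * (q * L + 2) ≤ e * (q + 2) * T := by
    rw [mul_assoc]
    refine Nat.mul_le_mul_left _ ?_
    have h1 : q * L ≤ q * T := Nat.mul_le_mul_left _ hLT
    calc q * L + 2 ≤ q * T + 2 * T := by omega
      _ = (q + 2) * T := by ring
  have hfac : ∀ p : Fin e × UU q → ℕ, (∀ u, p u ≤ T) → (D : ℝ) ^ (∑ u, p u + e * (q * L + 2)) *
      ∏ u, ((p u).factorial : ℝ) ≤ Real.exp (b * w) := by
    intro p hp
    have h1 := fac_bound hD hk hT p hp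
    rw [← hm, ← hw, ← hb] at h1
    exact h1
  have hsum : ∀ p : Fin e × UU q → ℕ, (∀ u, p u ≤ T) → ∑ u, p u ≤ m * T := by
    intro p hp
    calc ∑ u, p u ≤ ∑ _u : Fin e × UU q, T := Finset.sum_le_sum fun u _ => hp u
      _ = m * T := by rw [Finset.sum_const, Finset.card_univ, smul_eq_mul, hm]
  let eN := Fintype.equivFin (Fin e × UU q → Fin (T + 1))
  refine ⟨Fintype.card (Fin e × UU q → Fin (T + 1)),
    fun a => P (fun u => ((eN.symm a u : Fin (T + 1)) : ℕ)), ?_, ?_, ?_, ?_, ?_⟩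
  · rw [Fintype.card_fun, Fintype.card_fin, ← hm]
    push_cast
    calc ((T : ℝ) + 1) ^ m ≤ Real.exp T ^ m :=
          pow_le_pow_left₀ (by positivity) (Real.add_one_le_exp _) m
      _ = Real.exp (m * T) := pow_exp _ _
      _ ≤ Real.exp (C * T) :=
          Real.exp_le_exp.2 (mul_le_mul_of_nonneg_right (by linarith) (by linarith))
  · intro a
    have h1 := (p1 (fun u => ((eN.symm a u : Fin (T + 1)) : ℕ))).trans
      (hsum _ fun u => Nat.lt_succ_iff.1 (eN.symm a u).2)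
    have h2 : (((P (fun u => ((eN.symm a u : Fin (T + 1)) : ℕ))).totalDegree : ℕ) : ℝ) ≤
        m * T := by exact_mod_cast h1
    exact h2.trans (mul_le_mul_of_nonneg_right (by linarith) (by linarith))
  · intro a n
    obtain ⟨p, hp⟩ : ∃ p : Fin e × UU q → ℕ, p = fun u => ((eN.symm a u : Fin (T + 1)) : ℕ) :=
      ⟨_, rfl⟩
    have hpT : ∀ u, p u ≤ T := by
      intro u
      rw [hp]
      exact Nat.lt_succ_iff.1 (eN.symm a u).2
    change |(((P (fun u => ((eN.symm a u : Fin (T + 1)) : ℕ))).coeff n : ℤ) : ℝ)| ≤ _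
    rw [← hp]
    refine (p2 p n).trans ?_
    have a1 : ((∑ u, p u + 1 : ℕ) : ℝ) ^ (e * Fintype.card (II s t)) ≤
        Real.exp ((e * i : ℕ) * (m * w)) := by
      rw [← hi, ← pow_exp]
      refine pow_le_pow_left₀ (by positivity) ?_ _
      have h1 : ((∑ u, p u : ℕ) : ℝ) ≤ m * T := by exact_mod_cast hsum p hpT
      have h2 := Real.add_one_le_exp ((m : ℝ) * T)
      have h3 : Real.exp ((m : ℝ) * T) ≤ Real.exp (m * w) :=
        Real.exp_le_exp.2 (mul_le_mul_of_nonneg_left hxT hm0)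
      push_cast at h1 ⊢
      linarith
    have a2 : (Fintype.card (JJ s t L) : ℝ) ^ e ≤ Real.exp ((e * v : ℕ) * w) := by
      rw [Fintype.card_prod, Fintype.card_fun, Fintype.card_fun, Fintype.card_fin, ← pow_add,
        ← hv]
      push_cast
      rw [← pow_mul]
      calc ((L : ℝ) + 1) ^ (v * e) ≤ Real.exp w ^ (v * e) := by
            refine pow_le_pow_left₀ (by positivity) ?_ _
            have h1 := Real.add_one_le_exp (L : ℝ)
            exact h1.trans (Real.exp_le_exp.2 (hLTr.trans hxT))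
        _ = Real.exp (e * v * w) := by
            rw [pow_exp]
            congr 1
            push_cast
            ring
    have a3 : Real.exp (3 * |C0| * w) ^ e = Real.exp (e * (3 * |C0| * w)) := pow_exp _ _
    rw [← hw, a3]
    calc _ ≤ Real.exp ((e * i : ℕ) * (m * w)) * ((Real.exp ((e * v : ℕ) * w) *
          (Real.exp w * Real.exp (e * (3 * |C0| * w)))) * Real.exp (b * w)) := by
          refine mul_le_mul a1 ?_ (by positivity) (by positivity)
          refine mul_le_mul ?_ (hfac p hpT) (by positivity) (by positivity)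
          exact mul_le_mul_of_nonneg_right a2 (by positivity)
      _ = Real.exp (((e * i : ℕ) * m + (e * v : ℕ) + 1 + e * (3 * |C0|) + b) * w) := by
          rw [← Real.exp_add, ← Real.exp_add, ← Real.exp_add, ← Real.exp_add]
          congr 1
          ring
      _ ≤ Real.exp (C * T * Real.log (T + 2)) := by
          refine Real.exp_le_exp.2 ?_
          rw [mul_assoc, ← hw]
          refine mul_le_mul_of_nonneg_right ?_ (by linarith)
          rw [hC]
          linarith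
  · intro X U hX a
    obtain ⟨p, hp⟩ : ∃ p : Fin e × UU q → ℕ, p = fun u => ((eN.symm a u : Fin (T + 1)) : ℕ) :=
      ⟨_, rfl⟩
    have hpT : ∀ u, p u ≤ T := by
      intro u
      rw [hp]
      exact Nat.lt_succ_iff.1 (eN.symm a u).2
    change ‖MvPolynomial.aeval X (P (fun u => ((eN.symm a u : Fin (T + 1)) : ℕ)))‖ ≤ _
    rw [← hp]
    refine (p3 X (Real.exp (-U)) hX p).trans ?_
    calc Real.exp (-U) * _ ≤ Real.exp (-U) * Real.exp (b * w) :=
          mul_le_mul_of_nonneg_left (hfac p hpT) (Real.exp_pos _).le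
      _ = Real.exp (b * w - U) := by
          rw [← Real.exp_add]
          congr 1
          ring
      _ ≤ Real.exp (C * T * Real.log (T + 2) - U) := by
          refine Real.exp_le_exp.2 ?_
          rw [mul_assoc, ← hw]
          have : b * w ≤ C * w := mul_le_mul_of_nonneg_right (by linarith) (by linarith)
          linarith
  · intro X hX
    refine p4 X T hc fun p hp => ?_
    have h1 := hX (eN (fun u => ⟨p u, Nat.lt_succ_of_le (hp u)⟩))
    simp only [Equiv.symm_apply_apply] at h1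
    exact h1

end Pool.Agent.Helper59.LU
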