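import Pool.Agent.Helper59.LU.Wv
import Pool.Agent.Helper4.LT.La

/-!
PROJECT LT2, block Z: the zero estimate for the vector functions, from the general zero estimate.
-/

set_option autoImplicit false

namespace Pool.Agent.Helper59.LU

open Finset
open Pool.Agent.Helper34.LT LTG
open Pool.Agent.Helper34.LU
open Pool.Agent.Helper63.LU (Theta2)

section

variable {q : ℕ} {s t : Finset ℕ} {ρ1 ρ2 : ℕ → ℂ} {κ1 : s → ℂ} {κ2 : t → ℂ}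
  {c1 c2 : Polynomial ℤ → ℂ} {f : (s → ℂ) → ℂ} {g : (t → ℂ) → ℂ}

theorem lm_apply (a : Polynomial ℤ × Polynomial ℤ) (x : s ⊕ t → ℂ) :
    lm q κ1 κ2 a x = ∑ u, κ1 u * (starRingEnd ℂ) (pt q s a.1 u) * x (Sum.inl u) +
      ∑ v, κ2 v * (starRingEnd ℂ) (pt q t a.2 v) * x (Sum.inr v) := by
  change (∑ u, (κ1 u * (starRingEnd ℂ) (pt q s a.1 u)) • LinearMap.proj (Sum.inl u) +
    ∑ v, (κ2 v * (starRingEnd ℂ) (pt q t a.2 v)) • LinearMap.proj (Sum.inr v) :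
      (s ⊕ t → ℂ) →ₗ[ℂ] ℂ) x = _
  rw [LinearMap.add_apply, LinearMap.sum_apply, LinearMap.sum_apply]
  rfl

theorem lm_eq (h1 : ∀ u ∈ s, ρ1 u ≠ 0) (h2 : ∀ v ∈ t, ρ2 v ≠ 0)
    (a : Polynomial ℤ × Polynomial ℤ) (x : s ⊕ t → ℂ) :
    lm q κ1 κ2 a x = ∑ i, sgm ρ1 ρ2 κ1 κ2 (gm q s t ρ1 ρ2 a) i * x i := by
  rw [sgm_gm q κ1 κ2 h1 h2, Fintype.sum_sum_type, lm_apply]
  rfl

theorem lamS_sum (s : Finset ℕ) (ρ : ℕ → ℂ) {m : ℕ} (n : Fin m → ℤ) :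
    lamS q s ρ (∑ j, Polynomial.C (n j) * Polynomial.X ^ (j : ℕ)) =
      ∑ j, (n j : ℂ) • lamS q s ρ (Polynomial.X ^ (j : ℕ)) := by
  funext u
  rw [Finset.sum_apply]
  simp only [lamS, pt, map_sum, map_mul, Pi.smul_apply, smul_eq_mul, Finset.mul_sum]
  refine Finset.sum_congr rfl fun j _ => ?_
  rw [Polynomial.aeval_C]
  simp only [algebraMap_int_eq, eq_intCast]
  ring

theorem gm_cocompact (hs : HS q s) (ht : HS q t) (h1 : ∀ u ∈ s, ρ1 u ≠ 0)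
    (h2 : ∀ v ∈ t, ρ2 v ≠ 0) : ∃ R : ℝ, ∀ z, ∃ a, ‖z - gm q s t ρ1 ρ2 a‖ ≤ R := by
  obtain ⟨C1, hC1, e1⟩ := cocompact q s hs ρ1 h1
  obtain ⟨C2, hC2, e2⟩ := cocompact q t ht ρ2 h2
  refine ⟨C1 + C2, fun z => ?_⟩
  obtain ⟨n1, k1, _⟩ := e1 (fun u => z (Sum.inl u))
  obtain ⟨n2, k2, _⟩ := e2 (fun v => z (Sum.inr v))
  refine ⟨(∑ j, Polynomial.C (n1 j) * Polynomial.X ^ (j : ℕ),
    ∑ j, Polynomial.C (n2 j) * Polynomial.X ^ (j : ℕ)), ?_⟩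
  rw [pi_norm_le_iff_of_nonneg (by positivity)]
  rintro (u | v)
  · rw [← lamS_sum] at k1
    have h3 := (norm_le_pi_norm _ u).trans k1
    refine le_trans ?_ (h3.trans (by linarith))
    exact le_rfl
  · rw [← lamS_sum] at k2
    have h3 := (norm_le_pi_norm _ v).trans k2
    refine le_trans ?_ (h3.trans (by linarith))
    exact le_rfl

theorem diff_inl {F : (s → ℂ) → ℂ} (h : Differentiable ℂ F) :
    Differentiable ℂ (fun z : s ⊕ t → ℂ => F fun u => z (Sum.inl u)) := by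
  refine h.comp ?_
  rw [differentiable_pi]
  exact fun u => differentiable_apply (Sum.inl u)

theorem diff_inr {G : (t → ℂ) → ℂ} (h : Differentiable ℂ G) :
    Differentiable ℂ (fun z : s ⊕ t → ℂ => G fun v => z (Sum.inr v)) := by
  refine h.comp ?_
  rw [differentiable_pi]
  exact fun u => differentiable_apply (Sum.inr u)

/-- products are theta functions of degree one -/
theorem th_prod {F : (s → ℂ) → ℂ} {G : (t → ℂ) → ℂ} (hF : Differentiable ℂ F)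
    (hG : Differentiable ℂ G) (pF : QPS q s ρ1 κ1 c1 F) (pG : QPS q t ρ2 κ2 c2 G) :
    Theta (gm q s t ρ1 ρ2) (lm q κ1 κ2) (cm c1 c2) 1
      (fun z => F (fun u => z (Sum.inl u)) * G (fun v => z (Sum.inr v))) := by
  refine ⟨(diff_inl hF).mul (diff_inr hG), fun a z => ?_⟩
  have e1 := pF a.1 (fun u => z (Sum.inl u))
  have e2 := pG a.2 (fun v => z (Sum.inr v))
  have e3 : (fun u : s => (z + gm q s t ρ1 ρ2 a) (Sum.inl u)) =
      (fun u => z (Sum.inl u)) + lamS q s ρ1 a.1 := rfl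
  have e4 : (fun v : t => (z + gm q s t ρ1 ρ2 a) (Sum.inr v)) =
      (fun v => z (Sum.inr v)) + lamS q t ρ2 a.2 := rfl
  change F (fun u => (z + gm q s t ρ1 ρ2 a) (Sum.inl u)) *
    G (fun v => (z + gm q s t ρ1 ρ2 a) (Sum.inr v)) = _ *
      (F (fun u => z (Sum.inl u)) * G (fun v => z (Sum.inr v)))
  rw [e3, e4, e1, e2, lm_apply, cm, Nat.cast_one, one_mul]
  have e5 : (∑ u, κ1 u * (starRingEnd ℂ) (pt q s a.1 u) * z (Sum.inl u) +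
      ∑ v, κ2 v * (starRingEnd ℂ) (pt q t a.2 v) * z (Sum.inr v) + (c1 a.1 + c2 a.2)) =
      (∑ u, κ1 u * (starRingEnd ℂ) (pt q s a.1 u) * z (Sum.inl u) + c1 a.1) +
      (∑ v, κ2 v * (starRingEnd ℂ) (pt q t a.2 v) * z (Sum.inr v) + c2 a.2) := by ring
  have e6 := Complex.exp_add (∑ u, κ1 u * (starRingEnd ℂ) (pt q s a.1 u) * z (Sum.inl u) + c1 a.1)
    (∑ v, κ2 v * (starRingEnd ℂ) (pt q t a.2 v) * z (Sum.inr v) + c2 a.2)
  rw [e5, e6]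
  ring

theorem gm_bpf (h1 : IsTh q s ρ1 κ1 c1 f) (h2 : IsTh q t ρ2 κ2 c2 g) :
    ∀ p, ∃ F, Theta (gm q s t ρ1 ρ2) (lm q κ1 κ2) (cm c1 c2) 1 F ∧ F p ≠ 0 := by
  intro p
  obtain ⟨F, d1, p1, n1⟩ := h1.bpf (fun u => p (Sum.inl u))
  obtain ⟨G, d2, p2, n2⟩ := h2.bpf (fun v => p (Sum.inr v))
  exact ⟨_, th_prod d1 d2 p1 p2, mul_ne_zero n1 n2⟩

theorem fd_prod {F : (s → ℂ) → ℂ} {G : (t → ℂ) → ℂ} (hF : Differentiable ℂ F)
    (hG : Differentiable ℂ G) (a : s ⊕ t → ℂ) :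
    fderiv ℂ (fun z : s ⊕ t → ℂ => F (fun u => z (Sum.inl u)) * G (fun v => z (Sum.inr v))) 0 a =
      fderiv ℂ F 0 (fun u => a (Sum.inl u)) * G 0 + F 0 * fderiv ℂ G 0 (fun v => a (Sum.inr v)) := by
  let p1 : (s ⊕ t → ℂ) →L[ℂ] (s → ℂ) :=
    ContinuousLinearMap.pi fun u => ContinuousLinearMap.proj (Sum.inl u)
  let p2 : (s ⊕ t → ℂ) →L[ℂ] (t → ℂ) :=
    ContinuousLinearMap.pi fun v => ContinuousLinearMap.proj (Sum.inr v)
  have d1 : HasFDerivAt F (fderiv ℂ F 0) (p1 0) := by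
    rw [map_zero]
    exact (hF 0).hasFDerivAt
  have d2 : HasFDerivAt G (fderiv ℂ G 0) (p2 0) := by
    rw [map_zero]
    exact (hG 0).hasFDerivAt
  have d3 : HasFDerivAt (fun z : s ⊕ t → ℂ => F (p1 z)) ((fderiv ℂ F 0).comp p1) 0 :=
    d1.comp 0 p1.hasFDerivAt
  have d4 : HasFDerivAt (fun z : s ⊕ t → ℂ => G (p2 z)) ((fderiv ℂ G 0).comp p2) 0 :=
    d2.comp 0 p2.hasFDerivAt
  have d5 := d3.mul d4
  have d6 : fderiv ℂ (fun z : s ⊕ t → ℂ => F (fun u => z (Sum.inl u)) *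
      G (fun v => z (Sum.inr v))) 0 = _ := d5.fderiv
  rw [d6, map_zero, map_zero]
  change F 0 * fderiv ℂ G 0 (fun v => a (Sum.inr v)) + G 0 * fderiv ℂ F 0 (fun u => a (Sum.inl u))
    = _
  ring

theorem gm_imm (h1 : IsTh q s ρ1 κ1 c1 f) (h2 : IsTh q t ρ2 κ2 c2 g) :
    ∀ a : s ⊕ t → ℂ, a ≠ 0 → ∃ F G, Theta (gm q s t ρ1 ρ2) (lm q κ1 κ2) (cm c1 c2) 1 F ∧
      Theta (gm q s t ρ1 ρ2) (lm q κ1 κ2) (cm c1 c2) 1 G ∧
      fderiv ℂ F 0 a * G 0 ≠ F 0 * fderiv ℂ G 0 a := by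
  intro a ha
  by_cases h : (fun u => a (Sum.inl u)) = (0 : s → ℂ)
  · have h' : (fun v => a (Sum.inr v)) ≠ (0 : t → ℂ) := by
      intro h''
      apply ha
      funext i
      rcases i with u | v
      · exact congrFun h u
      · exact congrFun h'' v
    obtain ⟨G1, G2, d1, d2, p1, p2, hne⟩ := h2.imm _ h'
    obtain ⟨F, d3, p3, n3⟩ := h1.bpf 0
    refine ⟨_, _, th_prod d3 d1 p3 p1, th_prod d3 d2 p3 p2, ?_⟩
    rw [fd_prod d3 d1, fd_prod d3 d2]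
    intro h3
    apply hne
    have h4 : F 0 * F 0 * (fderiv ℂ G1 0 (fun v => a (Sum.inr v)) * G2 0) =
        F 0 * F 0 * (G1 0 * fderiv ℂ G2 0 (fun v => a (Sum.inr v))) := by
      linear_combination h3
    exact mul_left_cancel₀ (mul_ne_zero n3 n3) h4
  · obtain ⟨F1, F2, d1, d2, p1, p2, hne⟩ := h1.imm _ h
    obtain ⟨G, d3, p3, n3⟩ := h2.bpf 0
    refine ⟨_, _, th_prod d1 d3 p1 p3, th_prod d2 d3 p2 p3, ?_⟩
    rw [fd_prod d1 d3, fd_prod d2 d3]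
    intro h3
    apply hne
    have h4 : G 0 * G 0 * (fderiv ℂ F1 0 (fun u => a (Sum.inl u)) * F2 0) =
        G 0 * G 0 * (F1 0 * fderiv ℂ F2 0 (fun u => a (Sum.inl u))) := by
      linear_combination h3
    exact mul_left_cancel₀ (mul_ne_zero n3 n3) h4

theorem card_two (hs : HS q s) (ht : HS q t) (hcs : s.card = q.totient / 2)
    (hct : t.card = q.totient / 2) : Fintype.card (s ⊕ t) ≤ q := by
  rw [Fintype.card_sum, Fintype.card_coe, Fintype.card_coe, hcs, hct]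
  have h1 := Nat.totient_le q
  omega

/-- the zero estimate, from the general one -/
theorem Z_app_of (h1 : IsTh q s ρ1 κ1 c1 f) (h2 : IsTh q t ρ2 κ2 c2 g)
    (hcard : Fintype.card (s ⊕ t) ≤ q)
    (hth : ∀ (L : ℕ) (b : JJ s t L → ℂ),
      Theta2 (gm q s t ρ1 ρ2) (lm q κ1 κ2) (cm c1 c2) (sgm ρ1 ρ2 κ1 κ2) 1 (q * L)
        (fun x => ∑ j, b j * Vx f g j x))
    (hne : ∀ (L : ℕ) (b : JJ s t L → ℂ), b ≠ 0 → ∃ x, ∑ j, b j * Vx f g j x ≠ 0)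
    (hZ : ∃ C : ℕ, ∀ W : Submodule ℂ (II s t → ℂ),
      (∀ H : Submodule ℂ (II s t → ℂ), H ≠ ⊤ →
        (∀ x ∈ H, Sum.elim (0 : s ⊕ t → ℂ) (fun i => x (Sum.inr i) -
          sgm ρ1 ρ2 κ1 κ2 (fun j => x (Sum.inl j)) i) ∈ H) →
        (∀ x ∈ H, (fun i => x (Sum.inl i)) ∈ Submodule.span ℝ
          {y : s ⊕ t → ℂ | ∃ a, y = gm q s t ρ1 ρ2 a ∧
            Sum.elim (gm q s t ρ1 ρ2 a) (sgm ρ1 ρ2 κ1 κ2 (gm q s t ρ1 ρ2 a)) ∈ H}) →
        ¬ W ≤ H ∧ Fintype.card (s ⊕ t) + Module.finrank ℂ (W ⊓ H : Submodule ℂ (II s t → ℂ)) ≤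
          Module.finrank ℂ W + Module.finrank ℂ
            (H ⊓ LinearMap.ker (LinearMap.funLeft ℂ ℂ (Sum.inl : s ⊕ t → (s ⊕ t) ⊕ (s ⊕ t))) :
              Submodule ℂ (II s t → ℂ))) →
      ∀ k L : ℕ, 1 ≤ k → 1 ≤ L → ∀ F,
        Theta2 (gm q s t ρ1 ρ2) (lm q κ1 κ2) (cm c1 c2) (sgm ρ1 ρ2 κ1 κ2) k L F →
        (∃ z, F z ≠ 0) → ∀ T : ℕ, 1 ≤ T →
        (∀ v ∈ W, ∀ j ≤ 2 * Fintype.card (s ⊕ t) * T,
          iteratedDeriv j (fun s : ℂ => F (s • v)) 0 = 0) →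
        T ≤ C * k ^ Fintype.card (s ⊕ t) * L)
    (hsemi : ∀ X : II s t → ℂ, (∀ i, X i ≠ 0) → ∀ H : Submodule ℂ (II s t → ℂ), H ≠ ⊤ →
      (∀ x ∈ H, Sum.elim (0 : s ⊕ t → ℂ) (fun i => x (Sum.inr i) -
          sgm ρ1 ρ2 κ1 κ2 (fun j => x (Sum.inl j)) i) ∈ H) →
      (∀ x ∈ H, (fun i => x (Sum.inl i)) ∈ Submodule.span ℝ
          {y : s ⊕ t → ℂ | ∃ a, y = gm q s t ρ1 ρ2 a ∧
            Sum.elim (gm q s t ρ1 ρ2 a) (sgm ρ1 ρ2 κ1 κ2 (gm q s t ρ1 ρ2 a)) ∈ H}) →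
      ¬ LinearMap.range (wvl h1.half h2.half X) ≤ H ∧ Fintype.card (s ⊕ t) +
        Module.finrank ℂ (LinearMap.range (wvl h1.half h2.half X) ⊓ H :
          Submodule ℂ (II s t → ℂ)) ≤
          Module.finrank ℂ (LinearMap.range (wvl h1.half h2.half X)) + Module.finrank ℂ
            (H ⊓ LinearMap.ker (LinearMap.funLeft ℂ ℂ (Sum.inl : s ⊕ t → (s ⊕ t) ⊕ (s ⊕ t))) :
              Submodule ℂ (II s t → ℂ))) :
    ∃ C : ℕ, ∀ X : II s t → ℂ, (∀ i, X i ≠ 0) → ∀ L : ℕ, 1 ≤ L →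
      ∀ b : JJ s t L → ℂ, b ≠ 0 → ∀ T : ℕ,
      (∀ x : UU q → ℂ, ∀ j ≤ 2 * q * T,
        iteratedDeriv j (fun z : ℂ => ∑ k, b k * Vx f g k (wv h1.half h2.half X (z • x))) 0 = 0) →
      T ≤ C * L := by
  obtain ⟨C, hC⟩ := hZ
  refine ⟨C * q, fun X hX L hL b hb T hT => ?_⟩
  rcases Nat.eq_zero_or_pos T with h0 | h0
  · rw [h0]
    exact Nat.zero_le _
  have hq := h1.half.three
  have h3 := hC (LinearMap.range (wvl h1.half h2.half X)) (hsemi X hX) 1 (q * L) le_rfl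
    (Nat.mul_pos (by omega) hL) _ (hth L b) (hne L b hb) T h0 (by
      rintro _ ⟨x, rfl⟩ j hj
      have h4 : (fun z : ℂ => ∑ k, b k * Vx f g k (z • wvl h1.half h2.half X x)) =
          fun z : ℂ => ∑ k, b k * Vx f g k (wv h1.half h2.half X (z • x)) := by
        funext z
        rw [← map_smul]
        rfl
      rw [h4]
      refine hT x j (hj.trans ?_)
      exact Nat.mul_le_mul_right _ (Nat.mul_le_mul_left _ hcard))
  rw [one_pow, mul_one] at h3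
  calc T ≤ C * (q * L) := h3
    _ = C * q * L := by ring

end

end Pool.Agent.Helper59.LU
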